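import Pool.Agent.H91R2.EndCan.Final

/-!
# Commutative semigroups with cancellative pointwise endomorphism semigroup: coding theorem

Every ternary relation `ρ` on a set `Y` is coded in a commutative semigroup `RelSem ρ` which
differs from a numerical semigroup in five degrees only, and whose endomorphism semigroup is
cancellative iff `ρ` is rigid.  Consequently there are `2 ^ κ` isomorphism types of
non-cancellative members in every infinite cardinality `κ`.
-/

namespace Pool.Agent.Results.MP_4b0123_al.CodingRigid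

open H91R2.EndCan

universe u

theorem result :
    (∀ (Y : Type u) [Nontrivial Y] (ρ : Set (Y × Y × Y)),
      Cardinal.mk (RelSem ρ) = max (Cardinal.mk Y) Cardinal.aleph0 ∧
      NearNat (RelSem ρ) ∧ (Finite Y → FinGen (RelSem ρ)) ∧ ¬ Cancel (RelSem ρ) ∧
      (EndCancel (RelSem ρ) ↔ RigidRel ρ) ∧ (EndPowers (RelSem ρ) ↔ RigidRel ρ)) ∧
    (∀ (Y Y' : Type u) (ρ : Set (Y × Y × Y)) (ρ' : Set (Y' × Y' × Y')),
      Nonempty (RelSem ρ ≃* RelSem ρ') ↔ RelIso3 ρ ρ') ∧
    (∀ (A : Type u) [Infinite A],
      H91R2.EndRat.isoCount A (fun s => @EndCancel A s ∧ @EndPowers A s ∧ ¬ @Cancel A s.toMul) =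
        2 ^ Cardinal.mk A) :=
  ⟨fun Y _ ρ => coding_final Y ρ, fun Y Y' ρ ρ' => relSem_iso_iff ρ ρ', fun A _ => count_final A⟩

end Pool.Agent.Results.MP_4b0123_al.CodingRigid
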