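import Pool.Agent.H91R2.EndCan.Final

/-!
# Commutative semigroups with cancellative pointwise endomorphism semigroup: no structural
characterisation

The set `CanTab` of multiplication tables on `ℕ` of the commutative semigroups with cancellative
endomorphism semigroup is coanalytic-complete; no Borel condition and no first-order theory
describes it, even among the semigroups that differ from a numerical semigroup in the degrees
below `24` only.
-/

namespace Pool.Agent.Results.MP_4b0123_al.NoCharacterisation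

open H91R2.EndCan MeasureTheory

theorem result :
    AnalyticSet CanTabᶜ ∧
    (∀ A : Set (ℕ → ℕ), AnalyticSet A → ∃ Φ : (ℕ → ℕ) → (ℕ → ℕ → ℕ), Continuous Φ ∧
      ∀ x, IsCS (Φ x) ∧ IsNearNat (Φ x) ∧ ¬ IsCancelTab (Φ x) ∧ (Φ x ∈ CanTab ↔ x ∉ A) ∧
        (x ∉ A → OnlyPowers (Φ x))) ∧
    (¬ ∃ B : Set (ℕ → ℕ → ℕ), @MeasurableSet _ (borel (ℕ → ℕ → ℕ)) B ∧
      ∀ m, IsCS m → IsNearNat m → (m ∈ CanTab ↔ m ∈ B)) ∧
    (¬ ∃ T : LM.Theory, ∀ m : ℕ → ℕ → ℕ, IsCS m → IsNearNat m →
      (m ∈ CanTab ↔ @FirstOrder.Language.Theory.Model LM ℕ (strOf m) T)) :=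
  ⟨canTab_coanalytic, complete_final, no_borel_final, no_theory_final⟩

end Pool.Agent.Results.MP_4b0123_al.NoCharacterisation
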