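import Pool.Agent.H91R2.EndCan.FG2

/-!
# Commutative semigroups with cancellative pointwise endomorphism semigroup: tame classes

Necessary conditions, and classes in which the members are described.
-/

namespace Pool.Agent.Results.MP_4b0123_al.TameClasses

open H91R2.EndCan

universe u

theorem result :
    (∀ (S : Type u) [CommSemigroup S], EndCancel S → ∀ e : S, e * e = e → ∀ x, e * x = x) ∧
    (∀ (S : Type u) [CommSemigroup S] [Nonempty S],
      (∀ x : S, ∃ n, pw x n * pw x n = pw x n) → (EndCancel S ↔ IsGrp S)) ∧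
    (∀ (S : Type u) [CommSemigroup S] (φ : S → ℕ), IsAdd φ →
      ((∀ x, 0 < φ x) ∨ ∃ e : S, ∀ x, e * x = x) →
      ((∃ x, φ x = 1) ∨ ((∃ x, 0 < φ x) ∧ PowCancel S)) → (EndCancel S ↔ Cancel S)) ∧
    (∀ (S : Type u) [CommSemigroup S], FinGen S → PowCancel S →
      ((∃ e : S, e * e = e) ∨ NoAbsorb S) → (EndCancel S ↔ Cancel S)) ∧
    (∀ (S : Type u) [CommSemigroup S], FinGen S → NoAbsorb S →
      (EndCancel S ↔ ∀ g h : S →ₙ* S, (∀ x, ∃ d, d * g x = d * h x) → g = h)) ∧
    (∀ (S : Type u) [CommSemigroup S] (m : ℕ) (lev : S → ℕ), Layered S m lev → EndCancel S) := by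
  refine ⟨fun S _ h e he x => h.idem he x, fun S _ _ h => periodic_iff h, ?_,
    fun S _ h1 h2 h3 => fg_powCancel_iff' h1 h2 h3, fun S _ h1 h2 => fg_iff h1 h2,
    fun S _ m lev h => h.endCancel⟩
  intro S _ φ hφ hS h
  rcases h with h | ⟨h, hp⟩
  · exact graded_one_iff hφ hS h
  · exact graded_powCancel_iff hφ hS h hp

end Pool.Agent.Results.MP_4b0123_al.TameClasses
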